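import Pool.Agent.Helper50.CV.FlatK
import Pool.Agent.Helper99.CC.All

/-!
# The finite agreement form of the flat theorem

`Lf tr K δ ε`: at late stages the top coordinate of the corner is, outside of an event of probability `ε` and up to
`2 ^ (-(1 - δ) n)`, a polynomial of degree `K` of the base point whose coefficients (of size `2 ^ (δ n)`) are functions
of the cell of the point, and agree up to `2 ^ (-(1 - δ) n)` with functions of the cell of the line.
Exact corners satisfy it for all `δ, ε > 0` (`lf_K`, `lf_one`). `ST_LFE` is the statement for approximate corners.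
-/

set_option autoImplicit false

namespace Pool.Agent.Helper99.LF

open Filter Pool.Agent.Helper69.RK
open Pool.Agent.Helper31.EC Pool.Agent.Helper31.EC.Sp QS
open Pool.Agent.Helper38.NS Pool.Agent.Helper38.NS.FB Pool.Agent.Helper99.EC Pool.Agent.Helper99.CC
open Pool.Agent.Helper40.NSK Pool.Agent.Helper50.CV

noncomputable section

variable {S : Sp} {d k : ℕ}

/-- the corner of tame functions -/
def fc (tr : FTC S d k) : FC S d k :=
  ⟨QS.mk tr.t, fun i => QS.mk (tr.a i), fun i => QS.mk (tr.x i), QS.mk (tr.c 0), fun j => QS.mk (tr.c j.succ)⟩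

theorem cbOf_fc (tr : FTC S d k) : cbOf (fc tr) = tr.cb := by
  unfold cbOf fc FTC.cb
  congr 1
  funext j
  induction j using Fin.cases with
  | zero => rfl
  | succ j => rfl

theorem fc_z (tr : FTC S d k) : (fc tr).z = QS.mk tr.z := by
  rw [← cbOf_z, cbOf_fc, tr.fb_z]

theorem fc_q (tr : FTC S d k) (i : Fin (d + 1)) : (fc tr).q i = QS.mk (tr.q i) := by
  rw [← cbOf_q, cbOf_fc, tr.fb_q]

/-- finite agreement form -/
def Lf (tr : FTC S d k) (K : ℕ) (δ ε : ℝ) : Prop :=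
  ∀ᶠ n in UF, LfF (S.F n) K (fun i => TR.ev (tr.q i) n) (TR.ev tr.z n) (Setoid.ker (tr.pv.cellv 1 n))
    (Setoid.ker (tr.lv.cellv 1 n)) (2 ^ (δ * (S.F n).n)) (S.dl (1 - δ) n) ε

/-- exact corners, curved lines -/
theorem lf_K {N : ℕ} (hN : d ≤ N) (tr : FTC S d k) {ρ : ℝ} (hρ : 0 < ρ) (h : CorH (fc tr) N ρ 0) {δ ε : ℝ}
    (hδ : 0 < δ) (hε : 0 < ε) : Lf tr (2 * k * (d + 1) + k) δ ε := by
  have hy := hypOf _ h
  have hq := rlOf _ h
  have hu := unOf _ h
  have hG := gpOf _ hN h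
  rw [cbOf_fc] at hy hq hu hG
  exact finite_leaf_all tr hy hq zero_lt_one hρ hu hG hδ hε

/-- exact corners, straight lines -/
theorem lf_one {N : ℕ} (hN : d ≤ N) (tr : FTC S d 1) {ρ : ℝ} (hρ : 0 < ρ) (h : CorH (fc tr) N ρ 0) {δ ε : ℝ}
    (hδ : 0 < δ) (hε : 0 < ε) : Lf tr (d + 2) δ ε := by
  have hy := hypOf _ h
  have hq := rlOf _ h
  have hu := unOf _ h
  have hG := gpOf _ hN h
  rw [cbOf_fc] at hy hq hu hG
  exact finite_leaf_one tr hy hq hρ hu hG hδ hε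

/-- **LF, exact form** -/
def ST_LF (d k K N : ℕ) : Prop := ∀ (S : Sp) (tr : FTC S d k) (ρ : ℝ), 0 < ρ → CorH (fc tr) N ρ 0 →
  ∀ δ ε : ℝ, 0 < δ → 0 < ε → Lf tr K δ ε

/-- **LF, approximate form** -/
def ST_LFE (d k K N : ℕ) : Prop := ∀ ρ δ ε : ℝ, 0 < ρ → 0 < δ → 0 < ε → ∃ ε₀ : ℝ, 0 < ε₀ ∧
  ∀ (S : Sp) (tr : FTC S d k), CorH (fc tr) N ρ ε₀ → Lf tr K δ ε

theorem st_lf_K (d k N : ℕ) (hN : d ≤ N) : ST_LF d k (2 * k * (d + 1) + k) N :=
  fun _ tr _ hρ h _ _ hδ hε => lf_K hN tr hρ h hδ hε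

theorem st_lf_one (d N : ℕ) (hN : d ≤ N) : ST_LF d 1 (d + 2) N :=
  fun _ tr _ hρ h _ _ hδ hε => lf_one hN tr hρ h hδ hε

/-- **DIAGONAL of corners** (forward half): for a sequence of corners with errors tending to `0`, and properties
`Φ j n` which hold for fixed `j` at late stages, there is a diagonal which is an exact corner, whose functions are the
functions of the sequence, and which has the properties at late stages -/
def ST_FWD (d k N : ℕ) : Prop := ∀ (ρ : ℝ) (S : ℕ → Sp) (tr : ∀ j, FTC (S j) d k) (e : ℕ → ℝ),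
  Tendsto e atTop (nhds 0) → (∀ j, CorH (fc (tr j)) N ρ (e j)) →
  ∀ Φ : ℕ → ℕ → Prop, (∀ j, ∀ᶠ n in UF, Φ j n) →
  ∃ (J : ℕ → ℕ) (hJ : Tendsto (fun n => ((S (J n)).F n).n) UF atTop) (T : FTC ⟨fun n => (S (J n)).F n, hJ⟩ d k),
    (∀ n, TR.ev T.t n = TR.ev (tr (J n)).t n) ∧ (∀ i n, TR.ev (T.a i) n = TR.ev ((tr (J n)).a i) n) ∧
    (∀ i n, TR.ev (T.x i) n = TR.ev ((tr (J n)).x i) n) ∧ (∀ i n, TR.ev (T.c i) n = TR.ev ((tr (J n)).c i) n) ∧
    CorH (fc T) N ρ 0 ∧ ∀ᶠ n in UF, Φ (J n) n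

end

end Pool.Agent.Helper99.LF
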