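import Pool.Agent.Helper99.LF.St

/-!
# Finite agreement for approximate corners, from the exact form by a diagonal

`lfe_of : ST_FWD d k N → ST_LF d k K N → ST_LFE d k K N`. No backward passage is needed: a sequence of counterexamples
has, by the forward half `ST_FWD` of the diagonal, a diagonal which is an exact corner and fails the finite statement
at all late stages.
-/

set_option autoImplicit false

namespace Pool.Agent.Helper99.LF

open Filter Pool.Agent.Helper69.RK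
open Pool.Agent.Helper31.EC Pool.Agent.Helper31.EC.Sp QS
open Pool.Agent.Helper99.EC Pool.Agent.Helper99.CC
open Pool.Agent.Helper40.NSK

noncomputable section

/-- the base point, at one stage -/
def qAt {F : FSp} {d : ℕ} (t : F.Ω → ℝ) (a x : Fin d → F.Ω → ℝ) : Fin (d + 1) → F.Ω → ℝ :=
  Fin.cons t fun i ω => a i ω + t ω * x i ω

/-- the top coordinate, at one stage -/
def zAt {F : FSp} {k : ℕ} (t : F.Ω → ℝ) (c : Fin (k + 1) → F.Ω → ℝ) (ω : F.Ω) : ℝ :=
  ∑ j : Fin (k + 1), c j ω * t ω ^ (j : ℕ)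

/-- the finite agreement form at one stage -/
def LfAt (F : FSp) {d k : ℕ} (K : ℕ) (t : F.Ω → ℝ) (a x : Fin d → F.Ω → ℝ) (c : Fin (k + 1) → F.Ω → ℝ)
    (δ ε : ℝ) : Prop :=
  LfF F K (qAt t a x) (zAt t c)
    (Setoid.ker fun ω => Sp.cell ((2 : ℝ) ^ (-((1 : ℝ) * F.n)))
      fun i => (Fin.snoc (qAt t a x) (zAt t c) : Fin (d + 1 + 1) → F.Ω → ℝ) i ω)
    (Setoid.ker fun ω => Sp.cell ((2 : ℝ) ^ (-((1 : ℝ) * F.n)))
      fun i => (Fin.append (Fin.append a x) c : Fin (d + d + (k + 1)) → F.Ω → ℝ) i ω)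
    (2 ^ (δ * F.n)) ((2 : ℝ) ^ (-((1 - δ) * F.n))) ε

theorem ev_q {S : Sp} {d k : ℕ} (tr : FTC S d k) (n : ℕ) : (fun i => TR.ev (tr.q i) n) =
    qAt (TR.ev tr.t n) (fun i => TR.ev (tr.a i) n) (fun i => TR.ev (tr.x i) n) := by
  funext i
  induction i using Fin.cases with
  | zero => rfl
  | succ i => rfl

theorem ev_z {S : Sp} {d k : ℕ} (tr : FTC S d k) (n : ℕ) : TR.ev tr.z n =
    zAt (TR.ev tr.t n) (fun j => TR.ev (tr.c j) n) := by
  funext ω
  unfold FTC.z zAt
  rw [← TR.evh_apply, map_sum]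
  apply Finset.sum_congr rfl
  intro j _
  rw [map_mul, map_pow]
  rfl

theorem pv_ker {S : Sp} {d k : ℕ} (tr : FTC S d k) (n : ℕ) : Setoid.ker (tr.pv.cellv 1 n) =
    Setoid.ker fun ω => Sp.cell ((2 : ℝ) ^ (-((1 : ℝ) * (S.F n).n)))
      fun i => (Fin.snoc (qAt (TR.ev tr.t n) (fun i => TR.ev (tr.a i) n) (fun i => TR.ev (tr.x i) n))
        (zAt (TR.ev tr.t n) (fun j => TR.ev (tr.c j) n)) : Fin (d + 1 + 1) → (S.F n).Ω → ℝ) i ω := by
  have h : ∀ ω, (fun i => TR.ev ((Fin.snoc tr.q tr.z : Fin (d + 1 + 1) → TR S) i) n ω) =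
      fun i => (Fin.snoc (qAt (TR.ev tr.t n) (fun i => TR.ev (tr.a i) n) (fun i => TR.ev (tr.x i) n))
        (zAt (TR.ev tr.t n) (fun j => TR.ev (tr.c j) n)) : Fin (d + 1 + 1) → (S.F n).Ω → ℝ) i ω := by
    intro ω
    funext i
    induction i using Fin.lastCases with
    | last =>
      rw [Fin.snoc_last, Fin.snoc_last, ev_z]
    | cast i =>
      rw [Fin.snoc_castSucc, Fin.snoc_castSucc, ← ev_q]
  congr 1
  funext ω
  rw [← h]
  rfl

theorem lv_ker {S : Sp} {d k : ℕ} (tr : FTC S d k) (n : ℕ) : Setoid.ker (tr.lv.cellv 1 n) =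
    Setoid.ker fun ω => Sp.cell ((2 : ℝ) ^ (-((1 : ℝ) * (S.F n).n)))
      fun i => (Fin.append (Fin.append (fun i => TR.ev (tr.a i) n) fun i => TR.ev (tr.x i) n)
        (fun j => TR.ev (tr.c j) n) : Fin (d + d + (k + 1)) → (S.F n).Ω → ℝ) i ω := by
  have h : ∀ ω, (fun i => TR.ev ((Fin.append (Fin.append tr.a tr.x) tr.c : Fin (d + d + (k + 1)) → TR S) i) n ω) =
      fun i => (Fin.append (Fin.append (fun i => TR.ev (tr.a i) n) fun i => TR.ev (tr.x i) n)
        (fun j => TR.ev (tr.c j) n) : Fin (d + d + (k + 1)) → (S.F n).Ω → ℝ) i ω := by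
    intro ω
    funext i
    induction i using Fin.addCases with
    | left i =>
      rw [Fin.append_left, Fin.append_left]
      induction i using Fin.addCases with
      | left i => rw [Fin.append_left, Fin.append_left]
      | right i => rw [Fin.append_right, Fin.append_right]
    | right i => rw [Fin.append_right, Fin.append_right]
  congr 1
  funext ω
  rw [← h]
  rfl

/-- the finite agreement form depends only on the values of the functions -/
theorem lf_iff {S : Sp} {d k : ℕ} (tr : FTC S d k) (K : ℕ) (δ ε : ℝ) : Lf tr K δ ε ↔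
    ∀ᶠ n in UF, LfAt (S.F n) K (TR.ev tr.t n) (fun i => TR.ev (tr.a i) n) (fun i => TR.ev (tr.x i) n)
      (fun j => TR.ev (tr.c j) n) δ ε := by
  unfold Lf LfAt
  simp only [ev_q, ev_z, pv_ker, lv_ker]
  rfl

/-- **LF for approximate corners** -/
theorem lfe_of (d k K N : ℕ) (h1 : ST_FWD d k N) (h2 : ST_LF d k K N) : ST_LFE d k K N := by
  intro ρ δ ε hρ hδ hε
  by_contra hcon
  push Not at hcon
  have h3 : ∀ j : ℕ, ∃ (S : Sp) (tr : FTC S d k), CorH (fc tr) N ρ (1 / ((j : ℝ) + 1)) ∧ ¬ Lf tr K δ ε :=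
    fun j => hcon _ (by positivity)
  choose S tr hc hn using h3
  obtain ⟨J, hJ, T, ht, ha, hx, hcc, hcor, hΦ⟩ := h1 ρ S tr (fun j => 1 / ((j : ℝ) + 1))
    tendsto_one_div_add_atTop_nhds_zero_nat hc
    (fun j n => ¬ LfAt ((S j).F n) K (TR.ev (tr j).t n) (fun i => TR.ev ((tr j).a i) n)
      (fun i => TR.ev ((tr j).x i) n) (fun i => TR.ev ((tr j).c i) n) δ ε)
    (fun j => by
      have h4 := hn j
      rw [lf_iff] at h4
      exact Ultrafilter.eventually_not.mpr h4)
  have h5 := (lf_iff T K δ ε).mp (h2 _ T ρ hρ hcor δ ε hδ hε)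
  obtain ⟨n, h6, h7⟩ := (h5.and hΦ).exists
  apply h7
  rw [ht, funext fun i => ha i n, funext fun i => hx i n, funext fun i => hcc i n] at h6
  exact h6

end

end Pool.Agent.Helper99.LF
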