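import Pool.Agent.Helper99.LF.St
import Pool.Agent.Helper95.GR.Aff

/-!
# Straight lines over a flat base of dimension `1 + 1`: the leaf is affine

If three directions through the point are pairwise independent, the potential of the star has degree at most one; the
flat theorem and its finite agreement form hold with `K = 1` (for `N ≥ 2`).
-/

set_option autoImplicit false

namespace Pool.Agent.Helper99.LF

open Filter Pool.Agent.Helper69.RK
open Pool.Agent.Helper31.EC Pool.Agent.Helper31.EC.Sp QS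
open Pool.Agent.Helper38.NS Pool.Agent.Helper38.NS.FB Pool.Agent.Helper99.EC Pool.Agent.Helper99.CC
open Pool.Agent.Helper40.NSK Pool.Agent.Helper50.CV
open Pool.Agent.Helper25.EC

section algebra

open MvPolynomial Pool.Agent.Helper95.GR

variable {R : Type*} [CommRing R]

theorem dd_lin {m : ℕ} {ι : Type*} (s : Finset ι) (w : ι → R) (V : ι → Fin m → R) (G : MvPolynomial (Fin m) R) :
    dd (fun j => ∑ i ∈ s, w i * V i j) G = ∑ i ∈ s, C (w i) * dd (V i) G := by
  unfold dd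
  simp only [Finset.mul_sum]
  rw [Finset.sum_comm]
  apply Finset.sum_congr rfl
  intro j _
  rw [map_sum, Finset.sum_mul]
  apply Finset.sum_congr rfl
  intro i _
  rw [map_mul, mul_assoc]

/-- two variables, three pairwise independent directions -/
theorem deg_le_one_of_three (hu : ∀ n : ℕ, IsUnit ((n : R) + 1)) (v : Fin 3 → Fin 2 → R)
    (h01 : IsUnit (Matrix.of ![v 0, v 1]).det) (h02 : IsUnit (Matrix.of ![v 0, v 2]).det)
    (h12 : IsUnit (Matrix.of ![v 1, v 2]).det) (G : MvPolynomial (Fin 2) R)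
    (h : ∀ i, dd (v i) (dd (v i) G) = 0) : G.totalDegree ≤ 1 := by
  set V : Matrix (Fin 2) (Fin 2) R := Matrix.of ![v 0, v 1] with hV
  have hV0 : V 0 = v 0 := rfl
  have hV1 : V 1 = v 1 := rfl
  have hdir : ∀ i : Fin 2, dd (V i) (dd (V i) G) = 0 := by
    intro i
    fin_cases i
    · exact h 0
    · exact h 1
  obtain ⟨-, h1⟩ := deg_of_dir hu V h01 G hdir
  -- the third direction
  obtain ⟨D, hD⟩ : ∃ D, D = V.det := ⟨_, rfl⟩
  rw [Matrix.det_fin_two] at h02 h12
  have e0 : ∀ j, D * v 2 j = (v 1 1 * v 2 0 - v 1 0 * v 2 1) * v 0 j + (v 0 0 * v 2 1 - v 0 1 * v 2 0) * v 1 j := by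
    intro j
    rw [hD, Matrix.det_fin_two]
    show (v 0 0 * v 1 1 - v 0 1 * v 1 0) * v 2 j = _
    fin_cases j <;> simp <;> ring
  set α : R := v 1 1 * v 2 0 - v 1 0 * v 2 1 with hα
  set β : R := v 0 0 * v 2 1 - v 0 1 * v 2 0 with hβ
  have hαu : IsUnit α := by
    have : -(v 1 0 * v 2 1 - v 1 1 * v 2 0) = α := by rw [hα]; ring
    rw [← this]
    exact IsUnit.neg h12
  have hβu : IsUnit β := h02
  set P := sub V G with hP
  have hpp : ∀ i : Fin 2, pderiv i (pderiv i P) = 0 := by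
    intro i
    rw [hP, pderiv_sub, pderiv_sub, hdir i, map_zero]
  have hdw : ∀ H : MvPolynomial (Fin 2) R, C α * pderiv 0 (sub V H) + C β * pderiv 1 (sub V H) =
      sub V (C D * dd (v 2) H) := by
    intro H
    rw [pderiv_sub, pderiv_sub, map_mul, sub_C]
    have e1 : C D * dd (v 2) H = C α * dd (v 0) H + C β * dd (v 1) H := by
      unfold dd
      rw [Fin.sum_univ_two, Fin.sum_univ_two, Fin.sum_univ_two]
      have a0 := congrArg (C : R → MvPolynomial (Fin 2) R) (e0 0)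
      have a1 := congrArg (C : R → MvPolynomial (Fin 2) R) (e0 1)
      simp only [map_mul, map_add] at a0 a1
      linear_combination (pderiv 0 H) * a0 + (pderiv 1 H) * a1
    have e2 := congrArg (sub V) e1
    rw [map_mul, map_add, map_mul, map_mul, sub_C, sub_C, sub_C] at e2
    rw [e2]
    rfl
  have h2 : C α * pderiv 0 (C α * pderiv 0 P + C β * pderiv 1 P) +
      C β * pderiv 1 (C α * pderiv 0 P + C β * pderiv 1 P) = 0 := by
    rw [hP, hdw G, hdw (C D * dd (v 2) G)]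
    have e3 : dd (v 2) (C D * dd (v 2) G) = 0 := by
      rw [dd_mul, h 2, dd_C, mul_zero, mul_zero, add_zero]
    rw [e3, mul_zero, map_zero]
  have hcomm : pderiv 1 (pderiv 0 P) = pderiv 0 (pderiv 1 P) := by
    ext m
    rw [coeff_pderiv, coeff_pderiv, coeff_pderiv, coeff_pderiv, add_right_comm]
    simp only [Finsupp.add_apply, Finsupp.single_apply]
    norm_num
    ring
  have hC0 : ∀ (c : R) (i : Fin 2) (H : MvPolynomial (Fin 2) R), pderiv i (C c * H) = C c * pderiv i H := by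
    intro c i H
    rw [Derivation.leibniz, pderiv_C, smul_zero, add_zero, smul_eq_mul]
  have h3 : C (2 * α * β) * pderiv 0 (pderiv 1 P) = 0 := by
    rw [map_add, map_add, hC0, hC0, hC0, hC0, hpp 0, hpp 1, hcomm] at h2
    rw [map_mul, map_mul]
    have : (C (2 : R) : MvPolynomial (Fin 2) R) = 2 := by
      rw [map_ofNat]
    rw [this]
    linear_combination h2
  have h2u : IsUnit (2 : R) := by
    have := hu 1
    norm_num at this
    exact this
  have h4 : pderiv 0 (pderiv 1 P) = 0 := by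
    have hcu : IsUnit (C (2 * α * β) : MvPolynomial (Fin 2) R) := ((h2u.mul hαu).mul hβu).map C
    exact (hcu.mul_right_eq_zero).mp h3
  have h5 : ∀ a : Fin 2 →₀ ℕ, P.coeff a ≠ 0 → a 0 + a 1 ≤ 1 := by
    intro a ha
    have b0 := h1 a ha 0
    have b1 := h1 a ha 1
    by_contra hcon
    have c0 : a 0 = 1 := by omega
    have c1 : a 1 = 1 := by omega
    have h6 := congrArg (fun q => MvPolynomial.coeff 0 q) h4
    simp only [coeff_pderiv, coeff_zero] at h6
    apply ha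
    have h7 : (0 + Finsupp.single (0 : Fin 2) 1 + Finsupp.single (1 : Fin 2) 1 : Fin 2 →₀ ℕ) = a := by
      ext i
      fin_cases i
      · simp [c0]
      · simp [c1]
    rw [h7] at h6
    simpa using h6
  have h8 : P.totalDegree ≤ 1 := by
    rw [totalDegree]
    refine Finset.sup_le fun a ha => ?_
    rw [Finsupp.sum_fintype _ _ (fun _ => rfl), Fin.sum_univ_two]
    exact h5 a (mem_support_iff.1 ha)
  have h9 : sub V⁻¹ (sub V G) = G := by
    rw [Pool.Agent.Helper95.GR.sub_sub, Matrix.nonsing_inv_mul V h01, sub_one]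
  rw [← h9]
  exact (totalDegree_sub_le _ _).trans h8

end algebra

noncomputable section

/-- straight lines: the potential of a star is affine along all its lines -/
theorem dd_pot {T : Sp} {d : ℕ} {s : CB T d 1} {K : ℕ} {ι : Type} [Fintype ι] {W : Sp} {p : ι → Pj W T}
    (Φ : CPot s K p) (hX : I s.fb.iX s.fb.iP ⊥ = 0) (hq : Rl s.fb.q ⊥) (hT : H s.fb.iT = 1)
    (hst : IsStar s.fb.fQ p) (i : ι) :
    Pool.Agent.Helper95.GR.dd (fun a => (p i).qs (s.fb.v a))
      (Pool.Agent.Helper95.GR.dd (fun a => (p i).qs (s.fb.v a)) Φ.f) = 0 := by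
  obtain ⟨R, r1, r2, -, hI, -⟩ := exists_copyS (S := W) (fun x : Empty => (x.elim : QS W))
  have hbot : vd (fun x : Empty => (x.elim : QS W)) 1 = ⊥ := by
    rw [← le_bot_iff, vd_le]
    intro x
    exact x.elim
  rw [hbot] at hI
  obtain ⟨U, hU⟩ : ∃ U, U = Finset.univ.sup fun i => (p i).map s.fb.iX := ⟨_, rfl⟩
  have hrl := CPot.rl_point hst hX hq i
  rw [← hU] at hrl
  obtain ⟨y, hy⟩ : ∃ y : Fin (d + 1) → QS R, y = fun a => r1.qs ((p i).qs (s.fb.q a)) := ⟨_, rfl⟩
  obtain ⟨u, hu⟩ : ∃ u, u = r2.qs ((p i).qs s.fb.t) := ⟨_, rfl⟩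
  have hyA : Rl y (r1.map U) := by
    rw [hy]
    exact hrl.pull r1
  have hUB : r1.map U ≤ r1.map (U ⊔ vd (fun a => (p i).qs (s.fb.q a)) 1) := r1.map_mono le_sup_left
  have hyB : vd y 1 ≤ r1.map (U ⊔ vd (fun a => (p i).qs (s.fb.q a)) 1) := by
    rw [hy, r1.qs_vd]
    exact r1.map_mono le_sup_right
  have hfU : Φ.f ∈ PK U := by
    rw [hU]
    exact Φ.hf
  have hPU : Φ.P i 0 ∈ PK U := by
    rw [hU]
    exact Φ.hP i 0
  have hvU : ∀ a, dg (r1.qs ((p i).qs (s.fb.v a))) 1 ≤ r1.map U := by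
    intro a
    rw [r1.qs_dg, (p i).qs_dg]
    apply r1.map_mono
    rw [hU]
    exact ((p i).map_mono (s.fb.v_le a)).trans
      (Finset.le_sup (f := fun i => (p i).map s.fb.iX) (Finset.mem_univ i))
  have hs : Helper31.EC.h (dg u 1) (r1.map (U ⊔ vd (fun a => (p i).qs (s.fb.q a)) 1)) = 1 := by
    have h1 := hI (U ⊔ vd (fun a => (p i).qs (s.fb.q a)) 1) ((p i).map s.fb.iT)
    rw [Pj.map_bot, I_zero_iff_h', sup_bot_eq] at h1
    have h2 : dg u 1 = r2.map ((p i).map s.fb.iT) := by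
      rw [hu, r2.qs_dg, (p i).qs_dg]
      rfl
    rw [h2, h1, h_bot, r2.H_map, (p i).H_map]
    exact hT
  have key := Pool.Agent.Helper95.GR.dd_dd_eq_zero hUB hyA hyB hs hvU (map_PK r1 hfU)
    (α := MvPolynomial.eval y (MvPolynomial.map r1.qs Φ.f))
    (β := MvPolynomial.eval y (MvPolynomial.map r1.qs (Φ.P i 0)))
    (eval_mem (map_PK r1 hfU) y hUB fun a => (dg_le_vd y 1 a).trans hyB)
    (eval_mem (map_PK r1 hPU) y hUB fun a => (dg_le_vd y 1 a).trans hyB) (by
      have h1 := Φ.dv i R r1 y u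
      rw [Fin.sum_univ_one] at h1
      simp only [Fin.val_zero, zero_add, pow_one, add_sub_cancel_left] at h1
      linear_combination h1)
  -- back to the space of the star
  have hmap : ∀ G : MvPolynomial (Fin (d + 1)) (QS W), MvPolynomial.map r1.qs
      (Pool.Agent.Helper95.GR.dd (fun a => (p i).qs (s.fb.v a)) G) =
      Pool.Agent.Helper95.GR.dd (fun a => r1.qs ((p i).qs (s.fb.v a))) (MvPolynomial.map r1.qs G) := by
    intro G
    unfold Pool.Agent.Helper95.GR.dd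
    rw [map_sum]
    apply Finset.sum_congr rfl
    intro a _
    rw [map_mul, MvPolynomial.map_C, MvPolynomial.pderiv_map]
  apply MvPolynomial.map_injective r1.qs r1.qs_injective
  rw [hmap, hmap, map_zero]
  exact key

/-- two variables: three pairwise independent lines of the star -/
theorem deg_pot {T : Sp} {s : CB T 1 1} {K : ℕ} {ι : Type} [Fintype ι] {W : Sp} {p : ι → Pj W T}
    (Φ : CPot s K p) (hX : I s.fb.iX s.fb.iP ⊥ = 0) (hq : Rl s.fb.q ⊥) (hT : H s.fb.iT = 1)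
    (hst : IsStar s.fb.fQ p) (e : Fin 3 → ι) (h01 : IsUnit (dirM s p ![e 0, e 1]).det)
    (h02 : IsUnit (dirM s p ![e 0, e 2]).det) (h12 : IsUnit (dirM s p ![e 1, e 2]).det) :
    Φ.f.totalDegree ≤ 1 := by
  refine deg_le_one_of_three (fun n => Pool.Agent.Helper95.GR.isUnit_natCast n)
    (fun i a => (p (e i)).qs (s.fb.v a)) ?_ ?_ ?_ Φ.f (fun i => dd_pot Φ hX hq hT hst (e i))
  · refine (congrArg (fun M => IsUnit (Matrix.det M)) ?_).mp h01
    ext i j
    fin_cases i <;> rfl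
  · refine (congrArg (fun M => IsUnit (Matrix.det M)) ?_).mp h02
    ext i j
    fin_cases i <;> rfl
  · refine (congrArg (fun M => IsUnit (Matrix.det M)) ?_).mp h12
    ext i j
    fin_cases i <;> rfl

/-- the finite leaf statement for a given star whose potential has small degree -/
theorem finite_leafD {T : Sp} {d k K K' : ℕ} (tr : FTC T d k) {s : CB T d k} (hsdef : s = tr.cb) (hP0 : CPOT s K)
    (hy : s.Hyp) (hq : Rl s.fb.q ⊥) {a0 c : ℝ} (ha0 : a0 < 1) (hc : 0 < c)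
    (hu : UnS s.fb.z (s.fb.iT ⊔ s.fb.iY) a0 c) {ι : Type} [Fintype ι] {W : Sp} {p : ι → Pj W T}
    (hst : IsStar s.fb.fQ p) (hsp : GPs s p) (Φ : CPot s K p) (hdeg : Φ.f.totalDegree ≤ K')
    {δ ε : ℝ} (hδ : 0 < δ) (hε : 0 < ε) : ∀ᶠ n in UF, LfF (T.F n) K' (fun i => TR.ev (tr.q i) n) (TR.ev tr.z n)
      (Setoid.ker (tr.pv.cellv 1 n)) (Setoid.ker (tr.lv.cellv 1 n)) (2 ^ (δ * (T.F n).n)) (T.dl (1 - δ) n) ε := by
  classical
  have hX : I s.fb.iX s.fb.iP ⊥ = 0 := hy.s1
  have hsa : s.a = fun i => QS.mk (tr.a i) := by rw [hsdef]; rfl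
  have hsx : s.x = fun i => QS.mk (tr.x i) := by rw [hsdef]; rfl
  have hsc : s.c = fun i => QS.mk (tr.c i) := by rw [hsdef]; rfl
  have hfree := Φ.free hP0 hX hq hst hsp
  obtain ⟨i0⟩ := hsp.ne
  set p0 : Pj W T := p i0 with hp0
  -- the coefficients
  set Cf : Helper3.LF.Mon (d + 1) K' → QS W := fun a => if a.ex = 0 then Φ.g i0 else Φ.f.coeff a.ex with hCf
  set CR : Helper3.LF.Mon (d + 1) K' → TR W := fun a => rep (Cf a) with hCR
  have hmk : ∀ a, QS.mk (CR a) = Cf a := fun a => mk_rep _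
  have hq0 : ∀ i, p0.qs (QS.mk (tr.q i)) = p0.qs (s.fb.q i) := fun i => by rw [hsdef, tr.fb_q]
  have hz0 : p0.qs (QS.mk tr.z) = p0.qs s.fb.z := by rw [hsdef, tr.fb_z]
  -- the expansion of `z`
  have hz : p0.qs (QS.mk tr.z) =
      ∑ a : Helper3.LF.Mon (d + 1) K', QS.mk (CR a) * ∏ i, p0.qs (QS.mk (tr.q i)) ^ (a.1 i : ℕ) := by
    have e1 : p0.qs s.fb.z = Φ.g i0 + MvPolynomial.eval (fun a => p0.qs (s.fb.q a)) Φ.f := by
      show p0.qs s.fb.z = (p0.qs s.fb.z - MvPolynomial.eval (fun a => p0.qs (s.fb.q a)) Φ.f) + _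
      ring
    rw [hz0, e1, eval_mon Φ.f hdeg]
    -- the constant term
    have e2 : ∃ a0 : Helper3.LF.Mon (d + 1) K', a0.ex = 0 := by
      refine ⟨⟨fun _ => 0, by simp⟩, ?_⟩
      ext i
      rfl
    obtain ⟨a0, ha0⟩ := e2
    have hinj : Function.Injective (Helper3.LF.Mon.ex : Helper3.LF.Mon (d + 1) K' → Fin (d + 1) →₀ ℕ) := by
      intro a b h
      apply Subtype.ext
      funext i
      apply Fin.ext
      exact DFunLike.congr_fun h i
    rw [← Finset.add_sum_erase _ _ (Finset.mem_univ a0), ← Finset.add_sum_erase _ (fun a : Helper3.LF.Mon (d + 1) K' =>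
      QS.mk (CR a) * ∏ i, p0.qs (QS.mk (tr.q i)) ^ (a.1 i : ℕ)) (Finset.mem_univ a0)]
    have e3 : ∏ i, p0.qs (QS.mk (tr.q i)) ^ (a0.1 i : ℕ) = 1 := by
      apply Finset.prod_eq_one
      intro i _
      have h1 : (a0.1 i : ℕ) = 0 := DFunLike.congr_fun ha0 i
      rw [h1, pow_zero]
    rw [e3, mul_one, hmk]
    have e4 : Cf a0 = Φ.g i0 := by
      show (if a0.ex = 0 then Φ.g i0 else Φ.f.coeff a0.ex) = _
      rw [if_pos ha0]
    rw [e4, ha0, Φ.f0, zero_mul, zero_add]
    congr 1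
    apply Finset.sum_congr rfl
    intro a ha
    have h1 : a.ex ≠ 0 := by
      intro hc0
      exact (Finset.mem_erase.mp ha).1 (hinj (hc0.trans ha0.symm))
    have h2 : Cf a = Φ.f.coeff a.ex := by
      show (if a.ex = 0 then Φ.g i0 else Φ.f.coeff a.ex) = _
      rw [if_neg h1]
    rw [hmk, h2]
    congr 1
    apply Finset.prod_congr rfl
    intro i _
    rw [hq0]
  -- copies given the point
  have hB : ∀ a, (two1 (cv p0 tr.pv)).qs (QS.mk (CR a)) = (two2 (cv p0 tr.pv)).qs (QS.mk (CR a)) := by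
    set r1 := two1 (cv p0 tr.pv) with hr1
    set r2 := two2 (cv p0 tr.pv) with hr2
    have c0 : ∀ a, r1.qs (p0.qs (s.fb.fQ a)) = r2.qs (p0.qs (s.fb.fQ a)) := by
      intro a
      rcases a with i | i
      · have h1 := two_com p0 tr.pv i.castSucc
        have h2 : TR.cor tr.pv i.castSucc = tr.q i := by
          unfold FTC.pv
          rw [TR.cor_vec, Fin.snoc_castSucc]
        rw [h2, ← tr.fb_q, ← hsdef] at h1
        exact h1
      · have h1 := two_com p0 tr.pv (Fin.last (d + 1))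
        have h2 : TR.cor tr.pv (Fin.last (d + 1)) = tr.z := by
          unfold FTC.pv
          rw [TR.cor_vec, Fin.snoc_last]
        rw [h2, ← tr.fb_z, ← hsdef] at h1
        exact h1
    have hc1 : ∀ i a, r1.qs ((p i).qs (s.fb.fQ a)) = r2.qs ((p i).qs (s.fb.fQ a)) := by
      intro i a
      rw [hst.com i i0 a]
      exact c0 a
    have hI1 : ∀ i x y, I (r1.map x) (r2.map y) (r1.map ((p i).map (vd s.fb.fQ 1))) = 0 := by
      intro i x y
      rw [hst.com_vd i i0, hsdef, ← tr.pv_dg]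
      exact two_ind p0 tr.pv x y
    have hf := Φ.agree hP0 hX hq hst hsp r1 r2 hc1 hI1
    have hfc : ∀ m, r1.qs (Φ.f.coeff m) = r2.qs (Φ.f.coeff m) := by
      intro m
      have := congrArg (MvPolynomial.coeff m) hf
      rwa [MvPolynomial.coeff_map, MvPolynomial.coeff_map] at this
    have hg : r1.qs (Φ.g i0) = r2.qs (Φ.g i0) := by
      unfold CPot.g
      rw [map_sub, map_sub, qs_eval, qs_eval, hf]
      have e1 : r1.qs ((p i0).qs s.fb.z) = r2.qs ((p i0).qs s.fb.z) := c0 (Sum.inr ())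
      have e2 : (fun a => r1.qs ((p i0).qs (s.fb.q a))) = fun a => r2.qs ((p i0).qs (s.fb.q a)) := by
        funext a
        exact c0 (Sum.inl a)
      rw [e1, e2]
    intro a
    rw [hmk]
    show r1.qs (if a.ex = 0 then Φ.g i0 else Φ.f.coeff a.ex) = r2.qs (if a.ex = 0 then Φ.g i0 else Φ.f.coeff a.ex)
    split_ifs
    · exact hg
    · exact hfc _
  -- copies given the line
  have hXX : ∀ a, (two1 (cv p0 tr.lv)).qs (QS.mk (CR a)) = (two2 (cv p0 tr.lv)).qs (QS.mk (CR a)) := by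
    set r1 := two1 (cv p0 tr.lv) with hr1
    set r2 := two2 (cv p0 tr.lv) with hr2
    have ca : ∀ j, r1.qs (p0.qs (s.a j)) = r2.qs (p0.qs (s.a j)) := by
      intro j
      have h1 := two_com p0 tr.lv (Fin.castAdd (k + 1) (Fin.castAdd d j))
      have h2 : TR.cor tr.lv (Fin.castAdd (k + 1) (Fin.castAdd d j)) = tr.a j := by
        unfold FTC.lv
        rw [TR.cor_vec, Fin.append_left, Fin.append_left]
      rw [h2] at h1
      rw [hsa]
      exact h1
    have cx : ∀ j, r1.qs (p0.qs (s.x j)) = r2.qs (p0.qs (s.x j)) := by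
      intro j
      have h1 := two_com p0 tr.lv (Fin.castAdd (k + 1) (Fin.natAdd d j))
      have h2 : TR.cor tr.lv (Fin.castAdd (k + 1) (Fin.natAdd d j)) = tr.x j := by
        unfold FTC.lv
        rw [TR.cor_vec, Fin.append_left, Fin.append_right]
      rw [h2] at h1
      rw [hsx]
      exact h1
    have cc : ∀ j, r1.qs (p0.qs (s.c j)) = r2.qs (p0.qs (s.c j)) := by
      intro j
      have h1 := two_com p0 tr.lv (Fin.natAdd (d + d) j)
      have h2 : TR.cor tr.lv (Fin.natAdd (d + d) j) = tr.c j := by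
        unfold FTC.lv
        rw [TR.cor_vec, Fin.append_right]
      rw [h2] at h1
      rw [hsc]
      exact h1
    obtain ⟨hf, hg⟩ := Φ.line_agree hy hq hst hsp hfree i0 ha0 hc hu r1 r2 ca cx cc
    have hfc : ∀ m, r1.qs (Φ.f.coeff m) = r2.qs (Φ.f.coeff m) := by
      intro m
      have := congrArg (MvPolynomial.coeff m) hf
      rwa [MvPolynomial.coeff_map, MvPolynomial.coeff_map] at this
    intro a
    rw [hmk]
    show r1.qs (if a.ex = 0 then Φ.g i0 else Φ.f.coeff a.ex) = r2.qs (if a.ex = 0 then Φ.g i0 else Φ.f.coeff a.ex)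
    split_ifs
    · exact hg
    · exact hfc _
  exact lfF_of p0 tr.q tr.z tr.pv tr.lv CR hz hB hXX hδ hε

/-- potentials of stars give sheets; the degree of the potential of the given star -/
theorem sh_ofD {S : Sp} {d k : ℕ} (c : FC S d k) {K K' : ℕ} (hP0 : CPOT (cbOf c) K) (hy : (cbOf c).Hyp)
    (hq : Rl (cbOf c).fb.q ⊥) {a0 c0 : ℝ}
    (ha0 : a0 < 1) (hc0 : 0 < c0) (hu : UnS (cbOf c).fb.z ((cbOf c).fb.iT ⊔ (cbOf c).fb.iY) a0 c0)
    {ι : Type} [Fintype ι] {W : Sp} {p : ι → Pj W S} (hst : IsStar (cbOf c).fb.fQ p) (hsp : GPs (cbOf c) p)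
    (Φ : CPot (cbOf c) K p) (hdeg : Φ.f.totalDegree ≤ K') : Sh c K' 0 0 := by
  classical
  have hX : I (cbOf c).fb.iX (cbOf c).fb.iP ⊥ = 0 := hy.s1
  have hfree := Φ.free hP0 hX hq hst hsp
  obtain ⟨i0⟩ := hsp.ne
  obtain ⟨p0, hp0⟩ : ∃ p0 : Pj W S, p0 = p i0 := ⟨_, rfl⟩
  refine ⟨W, p0, dg (Φ.g i0) 1, Φ.f + MvPolynomial.C (Φ.g i0), ?_, ?_, ?_, ?_, ?_⟩
  · exact (PK _).add_mem (PK_mono bot_le hfree) (C_mem le_rfl)
  · refine (MvPolynomial.totalDegree_add _ _).trans (max_le hdeg ?_)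
    rw [MvPolynomial.totalDegree_C]
    exact Nat.zero_le _
  · -- the value is a function of the line
    obtain ⟨R, r1, r2, hc, hI, -⟩ := exists_copyS
      (Sum.elim (fun i => p0.qs ((cbOf c).a i)) (Sum.elim (fun i => p0.qs ((cbOf c).x i)) (fun j => p0.qs ((cbOf c).c j))))
    rw [vd_sum, vd_sum, p0.qs_vd, p0.qs_vd, p0.qs_vd] at hI
    have h1 := Φ.line_agree hy hq hst hsp hfree i0 ha0 hc0 hu r1 r2
      (fun j => by rw [← hp0]; exact hc (Sum.inl j)) (fun j => by rw [← hp0]; exact hc (Sum.inr (Sum.inl j)))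
      (fun j => by rw [← hp0]; exact hc (Sum.inr (Sum.inr j)))
    have h2 : r1.map (dg (Φ.g i0) 1) = r2.map (dg (Φ.g i0) 1) := by
      rw [← r1.qs_dg, ← r2.qs_dg, h1.2]
    have h3 : r1.map (dg (Φ.g i0) 1) ≤
        r1.map (p0.map (vd (cbOf c).a 1) ⊔ (p0.map (vd (cbOf c).x 1) ⊔ p0.map (vd (cbOf c).c 1))) := by
      apply le_of_markov (A := r1.map (dg (Φ.g i0) 1)) (B := r2.map (dg (Φ.g i0) 1)) _ _ (hI _ _)
      · exact le_sup_left
      · rw [h2]
        exact le_sup_left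
    have h4 := r1.map_le.mp h3
    have h5 : vd (cbOf c).c 1 ≤ c.iL ⊔ (dg c.b 1 ⊔ c.iF) := by
      rw [vd_le]
      intro j
      induction j using Fin.cases with
      | zero =>
        show dg c.b 1 ≤ _
        order
      | succ j =>
        show dg (c.C j) 1 ≤ _
        have : dg (c.C j) 1 ≤ c.iF := dg_le_vd c.C 1 j
        order
    have h6 : vd (cbOf c).a 1 ⊔ vd (cbOf c).x 1 ≤ c.iA := le_sup_left
    apply le_of_eq
    rw [h_eq_zero_iff]
    refine h4.trans ?_
    rw [← p0.map_sup, ← p0.map_sup]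
    apply p0.map_mono
    unfold FC.iA
    unfold FC.iA at h6
    order
  · -- the value is independent of the base point
    have h1 := Φ.indep hy hst hsp hfree i0
    apply le_of_eq
    have h2 : p0.map c.iQ = vd (fun a => (p i0).qs ((cbOf c).fb.q a)) 1 := by
      rw [← hp0, p0.qs_vd, FB.vd_q, sup_comm]
      rfl
    rw [h2, I_comm]
    exact h1
  · have h1 : p0.qs c.z - MvPolynomial.eval (fun i => p0.qs (c.q i)) (Φ.f + MvPolynomial.C (Φ.g i0)) = 0 := by
      rw [map_add, MvPolynomial.eval_C]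
      unfold CPot.g
      rw [← hp0, ← cbOf_z]
      show p0.qs (cbOf c).fb.z - (MvPolynomial.eval (fun i => p0.qs ((cbOf c).fb.q i)) Φ.f +
        (p0.qs (cbOf c).fb.z - MvPolynomial.eval (fun i => p0.qs ((cbOf c).fb.q i)) Φ.f)) = 0
      ring
    rw [h1]
    exact Ideal.zero_mem _

/-- the affine potential of a corner over a base of dimension `1 + 1` -/
theorem exists_aff {S : Sp} (c : FC S 1 1) {N : ℕ} (hN : 2 ≤ N) {ρ : ℝ} (hρ : 0 < ρ) (h : CorH c N ρ 0) :
    ∃ (W : Sp) (p : Fin (N + 1) → Pj W S) (Φ : CPot (cbOf c) 3 p), IsStar (cbOf c).fb.fQ p ∧ GPs (cbOf c) p ∧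
      Φ.f.totalDegree ≤ 1 := by
  have hy := hypOf c h
  have hq := rlOf c h
  have hu := unOf c h
  have hP0 : CPOT (cbOf c) 3 := cpot (cbOf c) (slo_one (cbOf c) hy hq hρ hu) hy hq zero_lt_one hρ hu
  have hT : H (cbOf c).fb.iT = 1 := by
    have h1 := hy.ht
    have h2 : Helper31.EC.h (cbOf c).fb.iT ⊥ = 1 := by
      apply le_antisymm (FB.h_dg1 _ _)
      calc (1 : ℝ) = Helper31.EC.h (cbOf c).fb.iT ((cbOf c).fb.iL ⊔ (cbOf c).fb.iB) := h1.symm
        _ ≤ Helper31.EC.h (cbOf c).fb.iT ⊥ := h_anti bot_le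
    rwa [h_bot] at h2
  obtain ⟨w, hw⟩ := h.st
  have hw' : ∀ e : Fin 2 → Fin (N + 1), Function.Injective e → IsUnit (dirM (cbOf c) w.p e).det :=
    fun e he => big_unit (hw e he)
  have hst0 : IsStar (cbOf c).fb.fQ w.p := ⟨fun i j a => by
    rw [cbOf_fQ]
    exact w.com i j a, fun i0 A => by
    rw [cbOf_fQ, w.p_vd i0 1]
    exact w.ind A⟩
  have hsp0 : GPs (cbOf c) w.p := by
    refine ⟨⟨0⟩, fun i => ?_⟩
    have hle : 1 + 1 ≤ N + 1 := by omega
    exact ⟨fun j => Equiv.swap 0 i (Fin.castLE hle j), Equiv.swap_apply_left 0 i,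
      hw' _ ((Equiv.injective _).comp (Fin.castLE_injective hle))⟩
  obtain ⟨W, r, ⟨Φ⟩⟩ := hP0 (Fin (N + 1)) inferInstance w.W w.p hst0 hsp0
  refine ⟨W, fun i => r.comp (w.p i), Φ, hst0.pull r, hsp0.pull r, ?_⟩
  have hle : 3 ≤ N + 1 := by omega
  have hin : ∀ i j : Fin 3, i ≠ j → Function.Injective (![Fin.castLE hle i, Fin.castLE hle j] : Fin 2 → Fin (N + 1)) := by
    intro i j hij a b hab
    fin_cases a <;> fin_cases b
    · rfl
    · exact absurd (Fin.castLE_injective hle hab) hij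
    · exact absurd (Fin.castLE_injective hle hab).symm hij
    · rfl
  exact deg_pot Φ hy.s1 hq hT (hst0.pull r) (Fin.castLE hle)
    (dirM_comp_unit r (hw' _ (hin 0 1 (by decide)))) (dirM_comp_unit r (hw' _ (hin 0 2 (by decide))))
    (dirM_comp_unit r (hw' _ (hin 1 2 (by decide))))

/-- **FLATAFF**: over a base of dimension `1 + 1`, with three copies of the line through the point, the sheet is
affine -/
theorem flat_aff (N : ℕ) (hN : 2 ≤ N) : ST_FLAT 1 1 1 N := by
  intro S c ρ hρ h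
  have hy := hypOf c h
  have hq := rlOf c h
  have hu := unOf c h
  obtain ⟨W, p, Φ, hst, hsp, hdeg⟩ := exists_aff c hN hρ h
  exact sh_ofD c (cpot (cbOf c) (slo_one (cbOf c) hy hq hρ hu) hy hq zero_lt_one hρ hu) hy hq zero_lt_one hρ hu
    hst hsp Φ hdeg

/-- the finite agreement form, affine leaves -/
theorem lf_aff {S : Sp} {N : ℕ} (hN : 2 ≤ N) (tr : FTC S 1 1) {ρ : ℝ} (hρ : 0 < ρ) (h : CorH (fc tr) N ρ 0)
    {δ ε : ℝ} (hδ : 0 < δ) (hε : 0 < ε) : Lf tr 1 δ ε := by
  have hy := hypOf _ h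
  have hq := rlOf _ h
  have hu := unOf _ h
  obtain ⟨W, p, Φ, hst, hsp, hdeg⟩ := exists_aff _ hN hρ h
  have hP0 := cpot (cbOf (fc tr)) (slo_one (cbOf (fc tr)) hy hq hρ hu) hy hq zero_lt_one hρ hu
  exact finite_leafD tr (cbOf_fc tr) hP0 hy hq zero_lt_one hρ hu hst hsp Φ hdeg hδ hε

theorem st_lf_aff (N : ℕ) (hN : 2 ≤ N) : ST_LF 1 1 1 N :=
  fun _ tr _ hρ h _ _ hδ hε => lf_aff hN tr hρ h hδ hε

end

end Pool.Agent.Helper99.LF
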